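import Mathlib
import Pool.Agent.X301.WideMain

set_option autoImplicit false

/-!
# Uniformly asymptotically regular Lipschitz maps on the unit ball of Lin's renormed `ℓ₁`
-/

open Set Filter Topology Pool.Agent.X301

namespace Pool.Agent.Results.MP_7b51c2_an.LinBall

/-- the real sequence space `ℓ₁`; the coordinate `x n` is the coordinate of index `n + 1` in the
indexing by `1, 2, 3, …`. -/
abbrev L1 : Type := lp (fun _ : ℕ => ℝ) 1

/-- `γ_k = 8^k / (1 + 8^k)`. -/
noncomputable def gam (k : ℕ) : ℝ := 8 ^ k / (1 + 8 ^ k)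

/-- Lin's norm: the supremum over `k ≥ 1` of `γ_k` times the sum of the absolute values of the
coordinates of index at least `k`. -/
noncomputable def linNorm (x : L1) : ℝ := ⨆ k : ℕ, gam (k + 1) * ∑' n : ℕ, |x (n + k)|

/-- the closed unit ball of Lin's norm. -/
def linBall : Set L1 := {x | linNorm x ≤ 1}

/-- absolute sum -/
noncomputable def NN (c : ℕ → ℝ) : ℝ := ∑' n, |c n|

theorem summable_abs (x : L1) : Summable (fun n => |x n|) := by
  have h := (lp.memℓp x).summable (by norm_num)
  simpa using h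

theorem gam_le_one (k : ℕ) : gam k ≤ 1 := by
  unfold gam
  rw [div_le_one (by positivity)]
  linarith

theorem gam_nonneg (k : ℕ) : 0 ≤ gam k := by unfold gam; positivity

theorem tail_le_NN (x : L1) (k : ℕ) : ∑' n : ℕ, |x (n + k)| ≤ NN x := by
  have h := (summable_abs x).sum_add_tsum_nat_add k
  have h2 : 0 ≤ ∑ i ∈ Finset.range k, |x i| := Finset.sum_nonneg fun i _ => abs_nonneg _
  unfold NN
  linarith

theorem NN_nonneg (c : ℕ → ℝ) : 0 ≤ NN c := tsum_nonneg fun _ => abs_nonneg _

theorem term_le (x : L1) (k : ℕ) : gam (k + 1) * ∑' n : ℕ, |x (n + k)| ≤ NN x := by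
  have h0 : 0 ≤ ∑' n : ℕ, |x (n + k)| := tsum_nonneg fun _ => abs_nonneg _
  calc gam (k + 1) * ∑' n : ℕ, |x (n + k)| ≤ 1 * ∑' n : ℕ, |x (n + k)| :=
        mul_le_mul_of_nonneg_right (gam_le_one _) h0
    _ ≤ NN x := by rw [one_mul]; exact tail_le_NN x k

theorem linNorm_le (x : L1) : linNorm x ≤ NN x := ciSup_le (term_le x)

theorem le_linNorm (x : L1) : NN x ≤ 9 / 8 * linNorm x := by
  have hbd : BddAbove (range fun k : ℕ => gam (k + 1) * ∑' n : ℕ, |x (n + k)|) :=
    ⟨NN x, by rintro _ ⟨k, rfl⟩; exact term_le x k⟩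
  have h := le_ciSup hbd 0
  have h2 : gam (0 + 1) * ∑' n : ℕ, |x (n + 0)| = 8 / 9 * NN x := by
    unfold gam NN
    simp only [add_zero, zero_add]
    norm_num
  change gam (0 + 1) * ∑' n : ℕ, |x (n + 0)| ≤ linNorm x at h
  rw [h2] at h
  linarith

/-- the retraction onto the simplex. -/
noncomputable def ret (c : ℕ → ℝ) (i : ℕ) : ℝ :=
  (|c i| + (if i = 0 then max (1 - NN c) 0 else 0)) / max 1 (NN c)

theorem ret_prob {c : ℕ → ℝ} (hc : Summable fun n => |c n|) : IsProb (ret c) := by
  have hM : 0 < max 1 (NN c) := lt_of_lt_of_le one_pos (le_max_left _ _)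
  refine ⟨fun i => ?_, ?_⟩
  · unfold ret
    refine div_nonneg (add_nonneg (abs_nonneg _) ?_) hM.le
    split_ifs
    · exact le_max_right _ _
    · exact le_rfl
  · have h1 : HasSum (fun i => |c i| + (if i = 0 then max (1 - NN c) 0 else 0))
        (NN c + max (1 - NN c) 0) := hc.hasSum.add (hasSum_ite_eq 0 _)
    have h2 := h1.div_const (max 1 (NN c))
    have h3 : (NN c + max (1 - NN c) 0) / max 1 (NN c) = 1 := by
      rw [div_eq_one_iff_eq hM.ne']
      rcases le_total 1 (NN c) with h | h
      · rw [max_eq_right (by linarith : 1 - NN c ≤ 0), max_eq_right h]; ring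
      · rw [max_eq_left (by linarith : 0 ≤ 1 - NN c), max_eq_left h]; ring
    rw [h3] at h2
    exact h2

theorem ret_of_prob {t : ℕ → ℝ} (ht : IsProb t) : ret t = t := by
  have h1 : NN t = 1 := by
    unfold NN
    have : (fun n => |t n|) = t := by funext n; exact abs_of_nonneg (ht.nonneg n)
    rw [this]; exact ht.sum.tsum_eq
  funext i
  unfold ret
  rw [h1, abs_of_nonneg (ht.nonneg i)]
  simp

theorem NN_sub_le {c c' : ℕ → ℝ} (hc : Summable fun n => |c n|)
    (hc' : Summable fun n => |c' n|) : |NN c - NN c'| ≤ NN (fun i => c i - c' i) := by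
  unfold NN
  rw [← hc.tsum_sub hc']
  have hs : Summable (fun i => |c i - c' i|) :=
    Summable.of_nonneg_of_le (fun _ => abs_nonneg _) (fun i => abs_sub _ _) (hc.add hc')
  have hs2 : Summable (fun i => |(|c i| - |c' i|)|) :=
    Summable.of_nonneg_of_le (fun _ => abs_nonneg _) (fun i => abs_abs_sub_abs_le _ _) hs
  have h1 : |∑' i, (|c i| - |c' i|)| ≤ ∑' i, |(|c i| - |c' i|)| := by
    have := norm_tsum_le_tsum_norm (f := fun i => |c i| - |c' i|) (by simpa using hs2)
    simpa using this
  exact h1.trans (hs2.tsum_le_tsum (fun i => abs_abs_sub_abs_le _ _) hs)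

/-- coordinatewise bound for the retraction -/
theorem ret_lip {c c' : ℕ → ℝ} (hc : Summable fun n => |c n|)
    (hc' : Summable fun n => |c' n|) :
    NN (fun i => ret c i - ret c' i) ≤ 3 * NN (fun i => c i - c' i) := by
  set D := NN (fun i => c i - c' i) with hD
  have hD0 : 0 ≤ D := NN_nonneg _
  have hs : Summable (fun i => |c i - c' i|) :=
    Summable.of_nonneg_of_le (fun _ => abs_nonneg _) (fun i => abs_sub _ _) (hc.add hc')
  set M := max 1 (NN c) with hM
  set M' := max 1 (NN c') with hM'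
  have hM1 : 1 ≤ M := le_max_left _ _
  have hM1' : 1 ≤ M' := le_max_left _ _
  have hN := NN_sub_le hc hc'
  have hMM : |M - M'| ≤ D := by
    have := abs_max_sub_max_le_max 1 (NN c) 1 (NN c')
    rw [sub_self, abs_zero] at this
    exact this.trans (max_le hD0 hN)
  have hmm : |max (1 - NN c) 0 - max (1 - NN c') 0| ≤ D := by
    have := abs_max_sub_max_le_max (1 - NN c) 0 (1 - NN c') 0
    rw [sub_self (0 : ℝ), abs_zero] at this
    have h2 : 1 - NN c - (1 - NN c') = -(NN c - NN c') := by ring
    rw [h2, abs_neg] at this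
    exact this.trans (max_le hN hD0)
  have hr' := ret_prob hc'
  -- pointwise
  have hpt : ∀ i, |ret c i - ret c' i| ≤
      |c i - c' i| + (if i = 0 then D else 0) + D * ret c' i := by
    intro i
    set u := |c i| + (if i = 0 then max (1 - NN c) 0 else 0) with hu
    set u' := |c' i| + (if i = 0 then max (1 - NN c') 0 else 0) with hu'
    have e1 : ret c i = u / M := rfl
    have e2 : ret c' i = u' / M' := rfl
    have e3 : u / M - u' / M' = (u - u') / M + (M' - M) / M * (u' / M') := by
      have hMp : M ≠ 0 := by positivity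
      have hMp' : M' ≠ 0 := by positivity
      field_simp
      ring
    have hnn : 0 ≤ u' / M' := by rw [← e2]; exact hr'.nonneg i
    have huu : |u - u'| ≤ |c i - c' i| + (if i = 0 then D else 0) := by
      have e4 : u - u' = (|c i| - |c' i|) + ((if i = 0 then max (1 - NN c) 0 else 0) -
          (if i = 0 then max (1 - NN c') 0 else 0)) := by rw [hu, hu']; ring
      rw [e4]
      refine (abs_add_le _ _).trans (add_le_add (abs_abs_sub_abs_le _ _) ?_)
      split_ifs
      · exact hmm
      · simp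
    have hb0 : 0 ≤ |c i - c' i| + (if i = 0 then D else 0) := (abs_nonneg _).trans huu
    rw [e1, e2, e3]
    refine (abs_add_le _ _).trans ?_
    rw [abs_div, abs_mul, abs_div, abs_of_nonneg hnn, abs_of_pos (by linarith : 0 < M),
      abs_sub_comm M' M]
    have h5 : |u - u'| / M ≤ |c i - c' i| + (if i = 0 then D else 0) :=
      (div_le_self (abs_nonneg _) hM1).trans huu
    have h6 : |M - M'| / M ≤ D := (div_le_self (abs_nonneg _) hM1).trans hMM
    have h7 := mul_le_mul_of_nonneg_right h6 hnn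
    linarith
  have hsum : HasSum (fun i => |c i - c' i| + (if i = 0 then D else 0) + D * ret c' i)
      (D + D + D * 1) :=
    ((hs.hasSum).add (hasSum_ite_eq 0 D)).add (hr'.sum.mul_left D)
  have hsabs : Summable (fun i => |ret c i - ret c' i|) :=
    Summable.of_nonneg_of_le (fun _ => abs_nonneg _) hpt hsum.summable
  have := hsabs.tsum_le_tsum hpt hsum.summable
  rw [hsum.tsum_eq] at this
  unfold NN
  linarith

theorem NN_Mop_le {w v : ℕ → ℝ} {t : ℕ → ℝ} (ht : Summable fun n => |t n|)
    (hv : ∀ n, |w n| ≤ v n) (hv1 : ∀ n, v n ≤ 1) (hsv : Summable fun n => |w (n + 1) - w n|) :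
    (Summable fun n => |Mop w t n|) ∧
      NN (Mop w t) ≤ (∑' n, |w (n + 1) - w n|) * NN t + ∑' n, v n * |t n| := by
  have h3 : ∀ n, Mop w t n = (w (n + 1) - w n) * PS t (n + 1) + w n * t n := by
    intro n; rw [Mop, PS_succ]; ring
  have hv0 : ∀ n, 0 ≤ v n := fun n => (abs_nonneg _).trans (hv n)
  have hpt : ∀ n, |Mop w t n| ≤ |w (n + 1) - w n| * NN t + v n * |t n| := by
    intro n
    rw [h3]
    refine (abs_add_le _ _).trans (add_le_add ?_ ?_)
    · rw [abs_mul]
      exact mul_le_mul_of_nonneg_left (abs_PS_le ht.of_abs _) (abs_nonneg _)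
    · rw [abs_mul]
      exact mul_le_mul_of_nonneg_right (hv n) (abs_nonneg _)
  have hs1 : Summable (fun n => |w (n + 1) - w n| * NN t) := hsv.mul_right _
  have hs2 : Summable (fun n => v n * |t n|) :=
    Summable.of_nonneg_of_le (fun n => mul_nonneg (hv0 n) (abs_nonneg _))
      (fun n => mul_le_of_le_one_left (abs_nonneg _) (hv1 n)) ht
  have hs3 : Summable (fun n => |Mop w t n|) :=
    Summable.of_nonneg_of_le (fun _ => abs_nonneg _) hpt (hs1.add hs2)
  refine ⟨hs3, ?_⟩
  have := hs3.tsum_le_tsum hpt (hs1.add hs2)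
  rw [hs1.tsum_add hs2, tsum_mul_right] at this
  exact this

/-- the map on sequences -/
noncomputable def TT (c : ℕ → ℝ) : ℕ → ℝ := Mop bw (ret c)

theorem bw_diff (n : ℕ) : bw (n + 1) - bw n = (1 / 2) ^ (n + 1) := by
  unfold bw; ring

theorem bw_var : Summable (fun n => |bw (n + 1) - bw n|) ∧
    ∑' n, |bw (n + 1) - bw n| = 1 := by
  have h1 : (fun n => |bw (n + 1) - bw n|) = fun n : ℕ => (1 / 2 : ℝ) ^ n * (1 / 2) := by
    funext n
    rw [bw_diff, abs_of_nonneg (by positivity), pow_succ]
  rw [h1]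
  refine ⟨summable_geometric_two.mul_right _, ?_⟩
  rw [tsum_mul_right, tsum_geometric_two]; norm_num

theorem Mop_bw_le {c : ℕ → ℝ} (hc : Summable fun n => |c n|) :
    (Summable fun n => |Mop bw c n|) ∧ NN (Mop bw c) ≤ 2 * NN c := by
  have h := NN_Mop_le (w := bw) (v := fun _ => 1) hc
    (fun n => by rw [abs_of_nonneg (bw_wt.nonneg n)]; exact bw_wt.le_one n)
    (fun _ => le_rfl) bw_var.1
  refine ⟨h.1, h.2.trans ?_⟩
  rw [bw_var.2]
  simp only [one_mul]
  have : ∑' n, |c n| = NN c := rfl
  linarith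

theorem TT_prob {c : ℕ → ℝ} (hc : Summable fun n => |c n|) : IsProb (TT c) :=
  (ret_prob hc).Mop bw_wt bw_tendsto

theorem TT_lip {c c' : ℕ → ℝ} (hc : Summable fun n => |c n|)
    (hc' : Summable fun n => |c' n|) :
    NN (fun i => TT c i - TT c' i) ≤ 6 * NN (fun i => c i - c' i) := by
  have h1 := ret_lip hc hc'
  have hs : Summable (fun i => |ret c i - ret c' i|) := by
    have := (ret_prob hc).sum.summable.sub (ret_prob hc').sum.summable
    exact this.abs
  have h2 := (Mop_bw_le hs).2
  rw [Mop_sub] at h2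
  exact h2.trans (by linarith)

theorem TT_iter {c : ℕ → ℝ} (hc : Summable fun n => |c n|) (p : ℕ) :
    TT^[p + 1] c = Mop (fun n => bw n ^ (p + 1)) (ret c) ∧
      IsProb (Mop (fun n => bw n ^ (p + 1)) (ret c)) := by
  induction p with
  | zero =>
    simp only [zero_add, pow_one, Function.iterate_one]
    exact ⟨rfl, TT_prob hc⟩
  | succ p ih =>
    have h1 : Mop bw (Mop (fun n => bw n ^ (p + 1)) (ret c)) =
        Mop (fun n => bw n ^ (p + 1 + 1)) (ret c) := by
      rw [Mop_Mop]
      congr 1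
      funext n
      rw [pow_succ (bw n) (p + 1), mul_comm]
    rw [Function.iterate_succ_apply', ih.1]
    have h2 : TT (Mop (fun n => bw n ^ (p + 1)) (ret c)) =
        Mop bw (Mop (fun n => bw n ^ (p + 1)) (ret c)) := by
      unfold TT; rw [ret_of_prob ih.2]
    rw [h2, h1]
    refine ⟨rfl, ?_⟩
    rw [← h1]
    exact ih.2.Mop bw_wt bw_tendsto

/-- the weights of the difference of consecutive iterates. -/
noncomputable def ww (p n : ℕ) : ℝ := bw n ^ p * (1 / 2) ^ n

theorem ww_nonneg (p n : ℕ) : 0 ≤ ww p n :=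
  mul_nonneg (pow_nonneg (bw_wt.nonneg n) p) (by positivity)

theorem ww_le (p n : ℕ) : ww p n ≤ (1 / 2) ^ n :=
  mul_le_of_le_one_left (by positivity) (pow_le_one₀ (bw_wt.nonneg n) (bw_wt.le_one n))

theorem ww_summable (p : ℕ) : Summable (ww p) :=
  Summable.of_nonneg_of_le (ww_nonneg p) (ww_le p) summable_geometric_two

theorem ww_tendsto : Tendsto (fun p => ∑' n, ww p n) atTop (𝓝 0) := by
  have h := tendsto_tsum_of_dominated_convergence (f := fun p n => ww p n) (g := fun _ => (0 : ℝ))
    (𝓕 := atTop) (bound := fun n : ℕ => (1 / 2 : ℝ) ^ n) summable_geometric_two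
    (fun n => by
      have h1 : Tendsto (fun p => bw n ^ p) atTop (𝓝 0) := by
        refine tendsto_pow_atTop_nhds_zero_of_lt_one (bw_wt.nonneg n) ?_
        unfold bw
        have : (0 : ℝ) < (1 / 2) ^ n := by positivity
        linarith
      have := h1.mul_const ((1 / 2 : ℝ) ^ n)
      simpa [ww] using this)
    (Eventually.of_forall fun p n => by
      rw [Real.norm_eq_abs, abs_of_nonneg (ww_nonneg p n)]
      exact ww_le p n)
  simpa using h

theorem diff_le {t : ℕ → ℝ} (ht : IsProb t) (p : ℕ) :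
    NN (fun i => Mop (fun n => bw n ^ p) t i - Mop (fun n => bw n ^ (p + 1)) t i) ≤
      3 * ∑' n, ww p n := by
  have e1 : (fun i => Mop (fun n => bw n ^ p) t i - Mop (fun n => bw n ^ (p + 1)) t i) =
      Mop (ww p) t := by
    apply eq_of_PS
    intro n
    rw [PS_sub, PS_Mop, PS_Mop, PS_Mop]
    unfold ww bw
    ring
  rw [e1]
  have habs : (fun n => |t n|) = t := by funext n; exact abs_of_nonneg (ht.nonneg n)
  have hts : Summable (fun n => |t n|) := by rw [habs]; exact ht.sum.summable
  have hNt : NN t = 1 := by unfold NN; rw [habs]; exact ht.sum.tsum_eq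
  have hle : ∀ n, |ww p (n + 1) - ww p n| ≤ ww p (n + 1) + ww p n := by
    intro n
    refine (abs_sub _ _).trans ?_
    rw [abs_of_nonneg (ww_nonneg p _), abs_of_nonneg (ww_nonneg p _)]
  have hs1 : Summable (fun n => ww p (n + 1)) := (summable_nat_add_iff 1).2 (ww_summable p)
  have hsv : Summable (fun n => |ww p (n + 1) - ww p n|) :=
    Summable.of_nonneg_of_le (fun _ => abs_nonneg _) hle (hs1.add (ww_summable p))
  have h := (NN_Mop_le (w := ww p) (v := ww p) hts
    (fun n => by rw [abs_of_nonneg (ww_nonneg p n)])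
    (fun n => (ww_le p n).trans (pow_le_one₀ (by norm_num) (by norm_num))) hsv).2
  rw [hNt, mul_one] at h
  have h2 : ∑' n, |ww p (n + 1) - ww p n| ≤ ∑' n, ww p n + ∑' n, ww p n := by
    have h3 := hsv.tsum_le_tsum hle (hs1.add (ww_summable p))
    rw [hs1.tsum_add (ww_summable p)] at h3
    have h4 : ∑' n, ww p (n + 1) ≤ ∑' n, ww p n := by
      have := (ww_summable p).tsum_eq_zero_add
      rw [this]
      linarith [ww_nonneg p 0]
    linarith
  have h5 : ∑' n, ww p n * |t n| ≤ ∑' n, ww p n := by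
    refine Summable.tsum_le_tsum (fun n => ?_) ?_ (ww_summable p)
    · refine mul_le_of_le_one_right (ww_nonneg p n) ?_
      have := hts.le_tsum n (fun i _ => abs_nonneg _)
      have h6 : ∑' n, |t n| = 1 := hNt
      linarith
    · refine Summable.of_nonneg_of_le (fun n => mul_nonneg (ww_nonneg p n) (abs_nonneg _))
        (fun n => ?_) hts
      exact mul_le_of_le_one_left (abs_nonneg _)
        ((ww_le p n).trans (pow_le_one₀ (by norm_num) (by norm_num)))
  linarith

theorem TT_mem (x : L1) : Memℓp (TT x) 1 := by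
  rw [memℓp_gen_iff (by norm_num)]
  have := (TT_prob (summable_abs x)).sum.summable.abs
  simpa using this

/-- the map on `ℓ₁`. -/
noncomputable def T (x : L1) : L1 := ⟨TT x, TT_mem x⟩

theorem T_coe (x : L1) : ((T x : L1) : ℕ → ℝ) = TT x := rfl

theorem T_iter_coe (x : L1) (p : ℕ) : ((T^[p] x : L1) : ℕ → ℝ) = TT^[p] x := by
  induction p with
  | zero => rfl
  | succ p ih => rw [Function.iterate_succ_apply', Function.iterate_succ_apply', T_coe, ih]

/-- **Answer to Q1 (yes).** There is a map `T` of the closed unit ball of Lin's renorming of `ℓ₁`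
into itself which is Lipschitz and uniformly asymptotically regular and has no fixed point. -/
theorem result : ∃ T : L1 → L1, MapsTo T linBall linBall ∧
    (∃ L : ℝ, ∀ x ∈ linBall, ∀ y ∈ linBall, linNorm (T x - T y) ≤ L * linNorm (x - y)) ∧
    (∀ ε : ℝ, 0 < ε → ∃ N : ℕ, ∀ n ≥ N, ∀ x ∈ linBall, linNorm (T^[n] x - T^[n + 1] x) ≤ ε) ∧
    ∀ x ∈ linBall, T x ≠ x := by
  have hNT : ∀ x : L1, NN (TT x) = 1 := by
    intro x
    have ht := TT_prob (summable_abs x)
    unfold NN
    have : (fun n => |TT x n|) = TT x := by funext n; exact abs_of_nonneg (ht.nonneg n)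
    rw [this]; exact ht.sum.tsum_eq
  refine ⟨T, fun x _ => ?_, ⟨6 * (9 / 8), fun x _ y _ => ?_⟩, fun ε hε => ?_, fun x _ hfix => ?_⟩
  · exact (linNorm_le (T x)).trans (le_of_eq (hNT x))
  · refine (linNorm_le _).trans ?_
    have h1 := TT_lip (summable_abs x) (summable_abs y)
    have h2 := le_linNorm (x - y)
    have e1 : NN ((T x - T y : L1) : ℕ → ℝ) = NN (fun i => TT x i - TT y i) := rfl
    have e2 : NN ((x - y : L1) : ℕ → ℝ) = NN (fun i => x i - y i) := rfl
    rw [e1]
    rw [e2] at h2
    linarith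
  · have h1 := ww_tendsto.const_mul 3
    rw [mul_zero] at h1
    obtain ⟨N, hN⟩ := eventually_atTop.1 ((tendsto_order.1 h1).2 ε hε)
    refine ⟨N + 1, fun n hn x _ => ?_⟩
    obtain ⟨p, rfl⟩ : ∃ p, n = p + 1 := ⟨n - 1, by omega⟩
    refine (linNorm_le _).trans ?_
    have e1 : NN ((T^[p + 1] x - T^[p + 1 + 1] x : L1) : ℕ → ℝ) =
        NN (fun i => TT^[p + 1] x i - TT^[p + 1 + 1] x i) := by
      congr 1
      funext i
      change (T^[p + 1] x : L1) i - (T^[p + 1 + 1] x : L1) i = _
      rw [T_iter_coe, T_iter_coe]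
    rw [e1, (TT_iter (summable_abs x) p).1, (TT_iter (summable_abs x) (p + 1)).1]
    exact (diff_le (ret_prob (summable_abs x)) (p + 1)).trans (hN (p + 1) (by omega)).le
  · have h1 : TT x = x := by rw [← T_coe, hfix]
    have ht := TT_prob (summable_abs x)
    rw [h1] at ht
    have h2 : Mop bw x = x := by
      have : TT x = Mop bw (ret x) := rfl
      rw [this, ret_of_prob ht] at h1
      exact h1
    have h3 : ∀ n, PS x n = 0 := by
      intro n
      have h4 : PS (Mop bw x) n = PS x n := by rw [h2]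
      rw [PS_Mop, bw] at h4
      have h5 : (1 / 2 : ℝ) ^ n * PS x n = 0 := by linarith
      rcases mul_eq_zero.1 h5 with h6 | h6
      · exact absurd h6 (by positivity)
      · exact h6
    have h4 := ht.tendsto
    have h5 : PS x = fun _ => 0 := funext h3
    rw [h5] at h4
    exact zero_ne_one (tendsto_nhds_unique tendsto_const_nhds h4)

end Pool.Agent.Results.MP_7b51c2_an.LinBall
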